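import Pool.Agent.Helper47.ME.Goals
import Pool.Agent.Helper47.AQ.Few
import Pool.Agent.Helper89.MK.Pl

/-!
# ME, packet PLE: the equality case of the planar inequality
-/

open MeasureTheory Set
open Pool.Agent.Helper47.AQ Pool.Agent.Helper72.MK Pool.Agent.Helper47.ME
open Pool.Agent.Helper89.MK (eqv eqv_fst eqv_snd eqv_pair)

noncomputable section

namespace Pool.Agent.Helper61.ME

theorem ple (hPLSE : PLSEStmt) (hPLN : PLNStmt) : PLEStmt := by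
  intro P hP hF
  obtain ⟨z1, z2, hd, ⟨x1, hx1, hy1⟩, ⟨x2, hx2, hy2⟩, ⟨x3, hx3, hy3⟩, ⟨p1, hp1, hq1⟩,
    ⟨p2, hp2, hq2⟩, ⟨p3, hp3, hq3⟩⟩ := hPLN P hP
  have hdp : ∀ p ∈ dpol P, (![∑ j, p j * z1 j, ∑ j, p j * z2 j] : Fin 2 → ℝ) ∈
      dpol (eqv z1 z2 hd '' P) := by
    rintro p hp _ ⟨x, hx, rfl⟩ _ ⟨y, hy, rfl⟩
    rw [eqv_pair]
    exact hp x hx y hy
  have hB : IsBody (eqv z1 z2 hd '' P) := by
    have := hP.affine (eqv z1 z2 hd).toAffineEquiv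
    exact this
  obtain ⟨v, hv⟩ := hPLSE (eqv z1 z2 hd '' P) hB
    ⟨_, ⟨x1, hx1, rfl⟩, ⟨x1 + z1, hy1, by rw [map_add, eqv_fst]⟩⟩
    ⟨_, ⟨x2, hx2, rfl⟩, ⟨x2 + z2, hy2, by rw [map_add, eqv_snd]⟩⟩
    ⟨_, ⟨x3, hx3, rfl⟩, ⟨x3 + (z1 + z2), hy3, by
      rw [map_add, map_add, eqv_fst, eqv_snd]
      congr 1
      funext i
      fin_cases i <;> simp⟩⟩
    ⟨_, hdp p1 hp1, hq1⟩ ⟨_, hdp p2 hp2, hq2⟩
    ⟨_, hdp p3 hp3, by
      change ∑ j, p3 j * z1 j + ∑ j, p3 j * z2 j = 1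
      rw [← Finset.sum_add_distrib, ← hq3]
      refine Finset.sum_congr rfl fun i _ => ?_
      ring⟩
    (by rw [F_linear, hF])
  -- back to `P`
  have hcls : Cls (eqv z1 z2 hd '' P) := by
    rw [hv]
    refine few_vertices (by simp) v ?_
    rw [← hv]
    exact hB.int
  have hs : IsSimplex (eqv z1 z2 hd '' P) := by
    refine hcls.main.2.2 ?_
    rw [F_linear, hF]
    norm_num [Nat.factorial]
  have h1 := hs.affine (eqv z1 z2 hd).symm.toAffineEquiv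
  have h2 : (eqv z1 z2 hd).symm.toAffineEquiv '' (eqv z1 z2 hd '' P) = P := by
    rw [image_image]
    have : (fun x => (eqv z1 z2 hd).symm.toAffineEquiv (eqv z1 z2 hd x)) = id := by
      funext x
      exact (eqv z1 z2 hd).symm_apply_apply x
    rw [this, image_id]
  rwa [h2] at h1

end Pool.Agent.Helper61.ME
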