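import Pool.Agent.Helper78.ME.Goals
import Pool.Agent.Helper69.Ram.PAR

set_option autoImplicit false

/-!
# Packets ME PAR and PAR5: the parameters for large `n`
-/

namespace Pool.Agent.Helper61.ME

open Pool.Agent.Helper65.LinSpace Pool.Agent.Helper78.Mpc Pool.Agent.Helper28.Ram
open Pool.Agent.Helper78.ME Finset Filter

theorem PAR (h1 : Helper78.ME.PAR1_stmt) (h2 : Helper78.ME.PAR2_stmt) :
    Helper78.ME.PAR_stmt := by
  intro D k C hD hk
  obtain ⟨c, hc, hev⟩ := h2 D k hD hk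
  obtain ⟨K, hK⟩ := exists_nat_gt (4 * |C| / c)
  filter_upwards [h1 D k C hD hk, hev, ev_ll_ge K, eventually_ge_atTop 1] with n g1 g2 g3 g4
  intro r s hs hr hsQ
  obtain ⟨a1, a2, a3, a4⟩ := g1 r s hs hr hsQ
  refine ⟨a1, a2, a3, a4, ?_⟩
  have b1 := g2 s hs a2 a3
  set θ : ℝ := (D : ℝ) / (2 * (D : ℝ) - 1) with hθ
  set ρ : ℝ := (3 * (D : ℝ) - 1) / (2 * (D : ℝ) - 1) with hρ
  set N : ℕ := blocks n s D k * (dd n s D k ^ (D - 1) * (dd n s D k ^ (D - 1) * dd n s D k))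
    with hN
  have hD1 : (1 : ℝ) ≤ D := by exact_mod_cast hD
  have hρ2 : ρ ≤ 2 := by
    rw [hρ, div_le_iff₀ (by linarith)]
    linarith
  have hρ0 : 0 ≤ ρ := by
    rw [hρ]
    apply div_nonneg <;> linarith
  have hl : (Nat.log 2 n : ℝ) + 1 = (ll n : ℝ) := by
    unfold ll
    push_cast
    ring
  rw [hl] at hr b1
  have hn1 : (1 : ℝ) ≤ n := by exact_mod_cast g4
  have hl1 : (1 : ℝ) ≤ (ll n : ℝ) := by exact_mod_cast ll_pos n
  have hKl : 4 * |C| / c < (ll n : ℝ) := lt_of_lt_of_le hK (by exact_mod_cast g3)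
  rw [div_lt_iff₀ hc] at hKl
  have hpow : ((n : ℝ) + 1) ^ ρ ≤ 4 * (n : ℝ) ^ ρ := by
    calc ((n : ℝ) + 1) ^ ρ ≤ (2 * (n : ℝ)) ^ ρ :=
          Real.rpow_le_rpow (by linarith) (by linarith) hρ0
      _ = (2 : ℝ) ^ ρ * (n : ℝ) ^ ρ := Real.mul_rpow (by norm_num) (by linarith)
      _ ≤ 4 * (n : ℝ) ^ ρ := by
        apply mul_le_mul_of_nonneg_right _ (by positivity)
        calc (2 : ℝ) ^ ρ ≤ (2 : ℝ) ^ (2 : ℝ) :=
              Real.rpow_le_rpow_of_exponent_le (by norm_num) hρ2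
          _ = 4 := by norm_num
  have hmain : C * ((n : ℝ) + 1) ^ ρ / (ll n : ℝ) ^ 5 ≤ c * (n : ℝ) ^ ρ / (ll n : ℝ) ^ 4 := by
    rw [div_le_div_iff₀ (by positivity) (by positivity)]
    have hnρ : 0 ≤ (n : ℝ) ^ ρ := by positivity
    have hnρ' : 0 ≤ ((n : ℝ) + 1) ^ ρ := by positivity
    calc C * ((n : ℝ) + 1) ^ ρ * (ll n : ℝ) ^ 4
        ≤ |C| * (4 * (n : ℝ) ^ ρ) * (ll n : ℝ) ^ 4 := by
          apply mul_le_mul_of_nonneg_right _ (by positivity)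
          exact mul_le_mul (le_abs_self C) hpow hnρ' (abs_nonneg C)
      _ = (4 * |C|) * ((n : ℝ) ^ ρ * (ll n : ℝ) ^ 4) := by ring
      _ ≤ ((ll n : ℝ) * c) * ((n : ℝ) ^ ρ * (ll n : ℝ) ^ 4) := by
          apply mul_le_mul_of_nonneg_right hKl.le (by positivity)
      _ = c * (n : ℝ) ^ ρ * (ll n : ℝ) ^ 5 := by ring
  have hs0 : (0 : ℝ) < s := by exact_mod_cast hs
  have hsθ : 0 < (s : ℝ) ^ θ := Real.rpow_pos_of_pos hs0 θ
  have hfin : (r : ℝ) * (s : ℝ) ^ θ ≤ (N : ℝ) * (s : ℝ) ^ θ := by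
    calc (r : ℝ) * (s : ℝ) ^ θ ≤ _ := hr
      _ ≤ _ := hmain
      _ ≤ _ := b1
      _ = (N : ℝ) * (s : ℝ) ^ θ := by ring
  have : (r : ℝ) ≤ (N : ℝ) := le_of_mul_le_mul_right hfin hsθ
  exact_mod_cast this

theorem PAR5 : Helper78.ME.PAR5_stmt := by
  intro c D k
  obtain ⟨N, hN⟩ := eventually_atTop.1 (ev_ll_ge (8 * c))
  filter_upwards [ev_ll_cube (16 * c + 16), eventually_ge_atTop (c + 20), ev_ll_ge D,
    ev_ll_ge N, eventually_ge_atTop k] with n h1 h2 h3 h4 h5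
  refine ⟨h3, h5, fun S hS => ?_⟩
  have hl := ll_pos n
  have hll : 8 * c ≤ ll (ll n) := hN _ h4
  have hL : 16 * c + 16 ≤ n / ll n := by
    rw [Nat.le_div_iff_mul_le hl]
    refine le_trans (Nat.mul_le_mul_left _ ?_) h1
    nlinarith [Nat.mul_le_mul hl hl]
  have hLn : n / ll n ≤ n := Nat.div_le_self _ _
  have hSl : S * ll (ll n) ≤ n / ll n := by
    have h6 : S * ll (ll n) ≤ (n / ll n / ll (ll n)) * ll (ll n) :=
      Nat.mul_le_mul_right _ hS.le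
    exact h6.trans (Nat.div_mul_le_self _ _)
  have hSn : S ≤ n := by
    have : S ≤ S * ll (ll n) := Nat.le_mul_of_pos_right _ (ll_pos _)
    omega
  refine ⟨hSn, ?_, ?_, ?_⟩
  · unfold LW
    have h7 : S * (8 * c) ≤ S * ll (ll n) := Nat.mul_le_mul_left _ hll
    have h8 : 2 * (c * (4 * S + 8)) = S * (8 * c) + 16 * c := by ring
    omega
  · have e : 2 ^ (2 * ll n) = 2 ^ ll n * 2 ^ ll n := by rw [two_mul, pow_add]
    have hl2 := lt_two_pow_ll n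
    have h4 : (n + 1) * (n + 1) ≤ 2 ^ (2 * ll n) := by
      rw [e]
      exact Nat.mul_le_mul hl2 hl2
    refine le_trans ?_ h4
    unfold LW
    nlinarith
  · intro x hx
    have h5 : S + 1 ≤ Nat.log 2 x + 1 := by
      rw [hx]
      omega
    refine (Nat.pow_le_pow_right (by norm_num) h5).trans ?_
    have h6 := two_pow_log_le x 1
    rw [one_mul] at h6
    refine h6.trans ?_
    exact Nat.pow_le_pow_right (by omega) (by norm_num)

end Pool.Agent.Helper61.ME
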